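import Pool.Agent.C4F.StmtsP

/-!
# Squad C4F, row C4: the graph of the reduction has no induced 4-cycle
-/

set_option autoImplicit false

namespace Pool.Agent.C4F.H27

theorem cyc_asymm {D : Dat} {i j : ℕ} (h : D.Cyc i j) (h' : D.Cyc j i) : False := by
  obtain ⟨-, -, -, -, h1⟩ := h
  obtain ⟨-, -, -, -, h2⟩ := h'
  omega

theorem cyc_inc {D : Dat} {i j : ℕ} (h : D.Cyc i j) (h' : D.Pl i j ∨ D.Mi i j) : False := by
  obtain ⟨-, -, -, h1, -⟩ := h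
  rcases h' with ⟨h2, h3, -⟩ | ⟨h2, h3, -⟩ <;> omega

theorem cyc_inc' {D : Dat} {i j : ℕ} (h : D.Cyc i j) (h' : D.Pl j i ∨ D.Mi j i) : False := by
  obtain ⟨-, -, -, h1, -⟩ := h
  rcases h' with ⟨h2, h3, -⟩ | ⟨h2, h3, -⟩ <;> omega

theorem inc_asymm {D : Dat} {i j : ℕ} (h : D.Pl i j ∨ D.Mi i j) (h' : D.Pl j i ∨ D.Mi j i) :
    False := by
  rcases h with ⟨h1, h2, -⟩ | ⟨h1, h2, -⟩ <;> rcases h' with ⟨h3, h4, -⟩ | ⟨h3, h4, -⟩ <;> omega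

theorem nest {D : Dat} (hC : ChnStmt) {i x j y x' y' : ℕ}
    (h : D.E D.bt i x j y ∨ D.E D.bt j y i x) (h' : D.E D.bt i x' j y' ∨ D.E D.bt j y' i x') :
    (D.E D.bt i x j y' ∨ D.E D.bt j y' i x) ∨ (D.E D.bt i x' j y ∨ D.E D.bt j y i x') := by
  rcases h with (⟨a, b⟩ | ⟨a, b⟩) | (⟨a, b⟩ | ⟨a, b⟩)
  · rcases h' with (⟨a', b'⟩ | ⟨a', b'⟩) | (⟨a', b'⟩ | ⟨a', b'⟩)
    · by_cases c : y' < x
      · exact Or.inl (Or.inl (Or.inl ⟨a, c⟩))
      · exact Or.inr (Or.inl (Or.inl ⟨a, by omega⟩))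
    · exact (cyc_inc a a').elim
    · exact (cyc_asymm a a').elim
    · exact (cyc_inc' a a').elim
  · rcases h' with (⟨a', b'⟩ | ⟨a', b'⟩) | (⟨a', b'⟩ | ⟨a', b'⟩)
    · exact (cyc_inc a' a).elim
    · rcases hC D D.bt i x j y x' y' b b' with c | c
      · exact Or.inl (Or.inl (Or.inr ⟨a, c⟩))
      · exact Or.inr (Or.inl (Or.inr ⟨a, c⟩))
    · exact (cyc_inc' a' a).elim
    · exact (inc_asymm a a').elim
  · rcases h' with (⟨a', b'⟩ | ⟨a', b'⟩) | (⟨a', b'⟩ | ⟨a', b'⟩)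
    · exact (cyc_asymm a a').elim
    · exact (cyc_inc' a a').elim
    · by_cases c : x' < y
      · exact Or.inr (Or.inr (Or.inl ⟨a, c⟩))
      · exact Or.inl (Or.inr (Or.inl ⟨a, by omega⟩))
    · exact (cyc_inc a a').elim
  · rcases h' with (⟨a', b'⟩ | ⟨a', b'⟩) | (⟨a', b'⟩ | ⟨a', b'⟩)
    · exact (cyc_inc' a' a).elim
    · exact (inc_asymm a' a).elim
    · exact (cyc_inc a' a).elim
    · rcases hC D D.bt j y i x y' x' b b' with c | c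
      · exact Or.inr (Or.inr (Or.inr ⟨a, c⟩))
      · exact Or.inl (Or.inr (Or.inr ⟨a, c⟩))

theorem c4 (hC : ChnStmt) (hG : GirStmt) (hU : GluStmt) : C4Stmt := by
  intro D hD
  refine hU (Fin (D.k * 2 ^ D.W)) ℕ ℕ (fun u => u.1 / 2 ^ D.W) (fun u => u.1 % 2 ^ D.W) D.Hr
    (fun i x => D.Bad D.bt i x) (fun i x j y => D.E D.bt i x j y ∨ D.E D.bt j y i x) D.gr
    ?_ ?_ ?_ ?_ ?_ (hG D hD).1 (hG D hD).2
  · intro u v h
    exact h.2
  · intro u v huv h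
    refine ⟨fun e => huv ?_, h⟩
    apply Fin.ext
    rw [← Nat.div_add_mod u.1 (2 ^ D.W), ← Nat.div_add_mod v.1 (2 ^ D.W), e.1, e.2]
  · intro i x j y h
    rcases h with (⟨a, -⟩ | ⟨a, -⟩) | (⟨a, -⟩ | ⟨a, -⟩)
    · exact Or.inl a
    · rcases a with a | a
      · exact Or.inr (Or.inr (Or.inl a))
      · exact Or.inr (Or.inr (Or.inr (Or.inr (Or.inl a))))
    · exact Or.inr (Or.inl a)
    · rcases a with a | a
      · exact Or.inr (Or.inr (Or.inr (Or.inl a)))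
      · exact Or.inr (Or.inr (Or.inr (Or.inr (Or.inr a))))
  · intro i x j y h
    exact h.symm
  · intro i x j y x' y' h h'
    exact nest hC h h'

end Pool.Agent.C4F.H27
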